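import Mathlib
import Pool.Agent.Run7.h17.Multi

/-!
# Primes `2 k + 1` and prime values `F(p_{k n})`, for almost all constant terms

For almost all integers `e` of the size of `p ^ 2` the following holds: for all `n` up to a power of `log x` the number of
the `k ≤ x / n` for which `2 k + 1` and `p_{k n} ^ 2 + e` are prime, and the number of ALL pairs `k ≤ n` with `k n ≤ x` for
which `2 k + 1` and `p_{k n} ^ 2 + e` are prime, are the numbers predicted by the sieve model (one polynomial `X ^ 2`,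
`θ k n = 1` or `0` according as `2 k + 1` is prime or not). More generally `F i` (`i < r`) are nonconstant integer
polynomials, all the numbers `F i (p_{k n}) + e i` shall be prime, and the weights `θ k n` are arbitrary bounded numbers;
for instance the pairs may be restricted to an arbitrary set.

Used: the starting files `Pool.Agent.H373R2.T7` (sieve model, energies of polynomial values), `Pool.Agent.TH823.Fam`,
`Pool.Agent.H560R3.GB` (von Mangoldt's function along families of small energy) and `Pool.Agent.H442R2.KF` (second moment of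
the divisor function). From Mathlib: `ArithmeticFunction.vonMangoldt` is von Mangoldt's function `Λ`; `Finset.Icc a b` are the
integers from `a` to `b`; `Int.toNat n` is `n` for `n ≥ 0` and `0` for `n < 0`; `Nat.nth Nat.Prime (m - 1)` is the `m`-th
prime.
-/

set_option autoImplicit false

namespace Pool.Agent.Results.MP_c971ef_nt.AlmostAllConstants

open Finset Polynomial

/-- Von Mangoldt's function on the integers; it is `0` at the integers `n ≤ 0`. -/
noncomputable def vM (n : ℤ) : ℝ := ArithmeticFunction.vonMangoldt n.toNat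

/-- The sieve model: the positive integers without prime factors up to `z` have the weight `∏_{p ≤ z} (1 - 1 / p)⁻¹`,
the other integers the weight `0`. -/
noncomputable def model (z : ℕ) (n : ℤ) : ℝ :=
  if 1 ≤ n ∧ ∀ p ∈ (Icc 1 z).filter Nat.Prime, ¬ p ∣ n.toNat then
    (∏ p ∈ (Icc 1 z).filter Nat.Prime, (1 - 1 / (p : ℝ)))⁻¹ else 0

/-- The `m`-th prime. -/
noncomputable def pr (m : ℕ) : ℕ := Nat.nth Nat.Prime (m - 1)

/-- `∏_i Λ(F i (v) + c i)`. -/
noncomputable def primeProduct {r : ℕ} (F : Fin r → ℤ[X]) (c : Fin r → ℤ) (v : ℤ) : ℝ := ∏ i, vM ((F i).eval v + c i)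

/-- `∏_i model(F i (v) + c i)`. -/
noncomputable def modelProduct {r : ℕ} (z : ℕ) (F : Fin r → ℤ[X]) (c : Fin r → ℤ) (v : ℤ) : ℝ :=
  ∏ i, model z ((F i).eval v + c i)

/-- The sum of `θ(k, n) f(p_{k n})` over the `k` from `1` to `x / n`. -/
noncomputable def rowSum (x n : ℕ) (θ : ℕ → ℕ → ℝ) (f : ℤ → ℝ) : ℝ := ∑ k ∈ Icc 1 (x / n), θ k n * f (pr (k * n))

/-- The sum of `θ(k, n) f(p_{k n})` over the pairs `1 ≤ k ≤ n` with `k n ≤ x`. -/
noncomputable def pairSum (x : ℕ) (θ : ℕ → ℕ → ℝ) (f : ℤ → ℝ) : ℝ :=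
  ∑ v ∈ (Icc 1 x ×ˢ Icc 1 x).filter (fun v : ℕ × ℕ => v.1 ≤ v.2 ∧ v.1 * v.2 ≤ x), θ v.1 v.2 * f (pr (v.1 * v.2))

/-- The constants for which the sums over the rows `n ≤ w` and the sum over all pairs agree with their models, up to the
error `y`. -/
def GoodConstants {r : ℕ} (x z : ℕ) (w y : ℝ) (θ : ℕ → ℕ → ℝ) (F : Fin r → ℤ[X]) (c : Fin r → ℤ) : Prop :=
  (∀ n : ℕ, 1 ≤ n → (n : ℝ) ≤ w → |rowSum x n θ (primeProduct F c) - rowSum x n θ (modelProduct z F c)| ≤ y) ∧
    |pairSum x θ (primeProduct F c) - pairSum x θ (modelProduct z F c)| ≤ y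

lemma lam_eq (n : ℤ) : Pool.Agent.H373R2.T7.lamI n = vM n := by
  unfold Pool.Agent.H373R2.T7.lamI vM
  split_ifs with h
  · rfl
  · have : n.toNat = 0 := Int.toNat_of_nonpos (by omega)
    rw [this]
    simp

lemma lamz_eq (z : ℕ) (n : ℤ) : Pool.Agent.H373R2.T7.lamzI z n = model z n := by
  unfold Pool.Agent.H373R2.T7.lamzI Pool.Agent.H373R2.T7.lamz model
  by_cases h : 1 ≤ n
  · rw [if_pos h]
    by_cases h2 : ∀ p ∈ Pool.Agent.H373R2.T7.pz z, ¬ p ∣ n.toNat
    · rw [if_pos h2, if_pos ⟨h, h2⟩]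
      rfl
    · rw [if_neg h2, if_neg (fun h3 => h2 h3.2)]
  · rw [if_neg h, if_neg (fun h3 => h h3.1)]

open Classical in
/-- **Primes `p_{k n}` with prime polynomial values, for almost all constants.** -/
theorem result (r : ℕ) (F : Fin r → ℤ[X]) (hF : ∀ i, 1 ≤ (F i).natDegree) (κ U : ℕ) :
    ∃ B₀ : ℕ, ∀ E : ℕ, ∃ x₀ : ℕ, ∀ x : ℕ, x₀ ≤ x → ∀ M : Fin r → ℕ,
    (∀ i, (x : ℝ) ^ (F i).natDegree ≤ Real.log x ^ κ * M i ∧ (M i : ℝ) ≤ Real.log x ^ κ * x ^ (F i).natDegree) →
    ∀ a : Fin r → ℤ, (∀ i, |(a i : ℝ)| ≤ Real.log x ^ κ * M i) →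
    ∀ z : ℕ, Real.log x ^ B₀ ≤ z → (z : ℝ) ≤ Real.log x ^ E →
    ∀ θ : ℕ → ℕ → ℝ, (∀ k n, |θ k n| ≤ Real.log x ^ κ) →
    (((Fintype.piFinset (fun i => Icc 1 (M i))).filter
      (fun c : Fin r → ℕ => ¬ GoodConstants x z (Real.log x ^ κ) (x / Real.log x ^ U) θ F (fun i => a i + c i))).card : ℝ) ≤
      (∏ i, (M i : ℝ)) / Real.log x ^ U := by
  obtain ⟨B0, hB0⟩ := Pool.Agent.Run7.h17.Multi.multi_main r F hF (κ + 2) U
  refine ⟨B0, fun E => ?_⟩
  obtain ⟨n1, h1⟩ := hB0 E
  obtain ⟨n2, h2⟩ := Pool.Agent.Run7.h17.Pos.pn_bound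
  obtain ⟨n3, h3⟩ := Pool.Agent.H373R2.T7.ev_L' 1
  refine ⟨n1 + n2 + n3, fun x hx M hM a ha z hz1 hz2 θ hθ => ?_⟩
  have hL1 := h3 x (by omega)
  have hκ : Real.log x ^ κ ≤ Real.log x ^ (κ + 2) := pow_le_pow_right₀ hL1 (by omega)
  have h2κ : Real.log x ^ 2 ≤ Real.log x ^ (κ + 2) := pow_le_pow_right₀ hL1 (by omega)
  have key := h1 x (by omega) M (fun i => ⟨(hM i).1.trans (mul_le_mul_of_nonneg_right hκ (Nat.cast_nonneg _)),
      (hM i).2.trans (mul_le_mul_of_nonneg_right hκ (by positivity))⟩) a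
    (fun i => by push_cast; exact (ha i).trans (mul_le_mul_of_nonneg_right hκ (Nat.cast_nonneg _)))
    Pool.Agent.Run7.h17.Pos.pn (fun t ht => ⟨(Nat.prime_nth_prime (t - 1)).one_lt.le,
      (h2 x (by omega) t ht).trans (mul_le_mul_of_nonneg_right h2κ (Nat.cast_nonneg _))⟩)
    (Pool.Agent.Run7.h17.Pos.pn_inj x) z hz1 hz2 θ (fun k n => (hθ k n).trans hκ)
  refine le_trans (Nat.cast_le.mpr (card_le_card ?_)) key
  intro c hc
  rw [mem_filter] at hc ⊢
  refine ⟨hc.1, fun hgood => hc.2 ?_⟩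
  have e1 : ∀ v : ℤ, primeProduct F (fun i => a i + c i) v - modelProduct z F (fun i => a i + c i) v =
      ∏ i, Pool.Agent.H373R2.T7.lamI (a i + (F i).eval v + (c i : ℤ)) -
        ∏ i, Pool.Agent.H373R2.T7.lamzI z (a i + (F i).eval v + (c i : ℤ)) := by
    intro v
    unfold primeProduct modelProduct
    congr 1
    · refine prod_congr rfl fun i _ => ?_
      rw [← lam_eq]
      congr 1
      ring
    · refine prod_congr rfl fun i _ => ?_
      rw [← lamz_eq]
      congr 1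
      ring
  obtain ⟨g1, g2⟩ := hgood
  refine ⟨fun n hn1 hn2 => ?_, ?_⟩
  · have := g1 n hn1 (hn2.trans hκ)
    unfold rowSum
    rw [← sum_sub_distrib, sum_congr rfl fun k _ => by rw [← mul_sub, e1]]
    exact this
  · unfold pairSum
    rw [← sum_sub_distrib, sum_congr rfl fun v _ => by rw [← mul_sub, e1]]
    exact g2

end Pool.Agent.Results.MP_c971ef_nt.AlmostAllConstants
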