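import Pool.Agent.Run7.h414.PM.Kn

set_option autoImplicit false

/-!
# Primes `2 k + 1` and `p_{k n} ^ 2 - 2` for ALL large `n`: random models, and randomly displaced primes

We replace the primality of `p_{k n} ^ 2 - 2` (only) by the membership in a random set, and answer the question for all large
`n`, with the asymptotic number of the `k ≤ n`, for almost every set of the following kinds:
(1) every sequential random model of the primes with a sieve: the multiples of the primes `q ≤ z m` are forbidden for `m`, and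
every other `m` is accepted with a conditional probability asymptotic to `∏_{q ≤ z m} (1 - 1/q)⁻¹ / log m`, the decisions
being allowed to depend on each other in an arbitrary way; and
(2) the perturbed primes: the integers `m` for which the true number `m + J_m w_m` is prime, where `w_m` is the product of the
primes up to `z m`, and the `J_m` are independent and uniformly distributed on `{0, …, Q m - 1}`, `Q m w_m` lying between
`m / (log m)^C` and `m`. For `z m = 5` the numbers `p_{k n} ^ 2 - 2` are displaced by random multiples of `30`.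
The numbers `p ^ 2 - 2`, `p > 5` prime, have no prime factor up to `6`, so that for `z ≤ 6` all `k` with `2 k + 1` prime
count. For larger `z` the law holds with an error `O(log n)`.
-/

namespace Pool.Agent.Results.MP_c971ef_nt.ModelsAndPerturbedPrimes

open Filter MeasureTheory ProbabilityTheory
open scoped Topology

/-- No prime `q ≤ z m` divides `m`. -/
def Sieved (z : ℕ → ℕ) (m : ℕ) : Prop := ∀ q, q.Prime → q ≤ z m → ¬ q ∣ m

/-- `V x = ∏_{q ≤ x, q prime} (1 - 1/q)⁻¹`. -/
noncomputable def V (x : ℕ) : ℝ := ∏ q ∈ (Finset.Icc 1 x).filter Nat.Prime, (1 - (q : ℝ)⁻¹)⁻¹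

open Classical in
/-- The density of the model at `m`. -/
noncomputable def rho (z : ℕ → ℕ) (m : ℕ) : ℝ := if Sieved z m then V (z m) / Real.log m else 0

/-- The `m`-th prime, `m ≥ 1`. -/
noncomputable def p (m : ℕ) : ℕ := Nat.nth Nat.Prime (m - 1)

open Classical in
/-- The number of the `k` with `1 ≤ k ≤ n` for which `2 k + 1` is prime and `p_{k n} ^ 2 - 2` belongs to `S`. -/
noncomputable def R (S : Set ℕ) (n : ℕ) : ℕ :=
  ((Finset.Icc 1 n).filter (fun k => (2 * k + 1).Prime ∧ p (k * n) ^ 2 - 2 ∈ S)).card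

/-- The expected number: the sum of `rho (p_{k n} ^ 2 - 2)` over the `k` with `1 ≤ k ≤ n` for which `2 k + 1` is prime. -/
noncomputable def E (z : ℕ → ℕ) (n : ℕ) : ℝ :=
  ∑ k ∈ (Finset.Icc 1 n).filter (fun k => (2 * k + 1).Prime), rho z (p (k * n) ^ 2 - 2)

/-- The law: for every `η > 0` the numbers `R(n)` and `E(n)` differ by at most `η E(n) + K log n`, for all large `n`; and if
`z ≤ 6` then `R(n) / E(n)` tends to `1` and `R(n) ≥ n / (100 (log n) ^ 2)` for all large `n`. -/
def Law (z : ℕ → ℕ) (S : Set ℕ) : Prop :=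
  (∀ η : ℝ, 0 < η → ∃ K : ℝ, ∀ᶠ n : ℕ in atTop, |(R S n : ℝ) - E z n| ≤ η * E z n + K * Real.log n) ∧
  ((∀ m, z m ≤ 6) → Tendsto (fun n : ℕ => (R S n : ℝ) / E z n) atTop (𝓝 1) ∧
    ∀ᶠ n : ℕ in atTop, (n : ℝ) / (100 * Real.log n ^ 2) ≤ R S n)

/-- A sequential random model of the primes with the sieve `z`: the event `A m` (that `m` belongs to the random set) is
decided at time `m`; it is empty if some prime `q ≤ z m` divides `m`; and almost surely the conditional probability of
`A (m + 1)` given the information up to time `m` is asymptotic to `V (z (m + 1)) / log m` along the `m` for which `m + 1` has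
no prime factor `q ≤ z (m + 1)`. -/
structure Model {Ω : Type} [m0 : MeasurableSpace Ω] (μ : Measure Ω) (ℱ : Filtration ℕ m0) (z : ℕ → ℕ) (A : ℕ → Set Ω) : Prop where
  adapted : ∀ m, MeasurableSet[ℱ m] (A m)
  sieved : ∀ m, ¬ Sieved z m → A m = ∅
  density : ∀ᵐ ω ∂μ, Tendsto
    (fun m : ℕ => (μ[(A (m + 1)).indicator (fun _ => (1 : ℝ)) | ℱ m]) ω * Real.log m / V (z (m + 1)))
    (atTop ⊓ 𝓟 {m : ℕ | Sieved z (m + 1)}) (𝓝 1)

/-- The random variables `J m` are independent, and `J m` is uniformly distributed on `{0, …, Q m - 1}`. -/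
structure IndependentUniform {Ω : Type} [MeasurableSpace Ω] (μ : Measure Ω) (Q : ℕ → ℕ) (J : ℕ → Ω → ℕ) : Prop where
  measurable : ∀ m, Measurable (J m)
  independent : iIndepFun J μ
  uniform : ∀ m, 0 < Q m ∧ ∀ j < Q m, μ.real {ω | J m ω = j} = 1 / Q m

/-- The perturbed primes: the `m` for which `m + j_m w_m` is a prime larger than `z m`, where `w_m` is the product of
the primes up to `z m`. -/
def Perturbed (z : ℕ → ℕ) (j : ℕ → ℕ) : Set ℕ :=
  {m | (m + j m * primorial (z m)).Prime ∧ z m < m + j m * primorial (z m)}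

lemma R_eq (S : Set ℕ) (n : ℕ) : R S n = Pool.Agent.Run7.h414.PM.Kn.RR S n := by
  classical
  unfold R Pool.Agent.Run7.h414.PM.Kn.RR Pool.Agent.Run7.h414.PM.Kn.KK
  rw [Finset.filter_filter]
  rfl

lemma law_of (z : ℕ → ℕ) (S : Set ℕ)
    (h : ∀ η : ℝ, 0 < η → ∃ K : ℝ, 0 ≤ K ∧ ∀ᶠ n : ℕ in atTop, |(R S n : ℝ) - E z n| ≤ η * E z n + K * Real.log n) :
    Law z S := by
  refine ⟨fun η hη => ?_, fun hz => ?_⟩
  · obtain ⟨K, -, hK⟩ := h η hη
    exact ⟨K, hK⟩
  have hE : ∀ᶠ n : ℕ in atTop, (n : ℝ) / (64 * Real.log n ^ 2) ≤ E z n := Pool.Agent.Run7.h414.PM.Kn.EE_low z hz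
  have ht := Pool.Agent.Run7.h414.PM.Kn.ratio (fun n => (R S n : ℝ)) (E z) hE h
  refine ⟨ht, ?_⟩
  filter_upwards [hE, ht.eventually (lt_mem_nhds (show (64 / 100 : ℝ) < 1 by norm_num)),
    Pool.Agent.Run7.h414.PM.Kn.logt'.eventually_ge_atTop 1, eventually_ge_atTop 1] with n h1 h2 h3 h4
  have hn : (1 : ℝ) ≤ n := by exact_mod_cast h4
  have hl2 : 0 < Real.log n ^ 2 := by positivity
  have h5 : 0 < E z n := lt_of_lt_of_le (by positivity) h1
  rw [lt_div_iff₀ h5] at h2
  have h6 : (n : ℝ) / (100 * Real.log n ^ 2) = 64 / 100 * (n / (64 * Real.log n ^ 2)) := by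
    field_simp
  rw [h6]
  nlinarith

/-- **All large `n`, in random models and for perturbed primes.** For `z ≤ 6` the expected number is at least
`n / (64 (log n) ^ 2)` for all large `n`. The law holds almost surely (1) for every sequential random model of the primes
with a sieve `z` such that the densities `V (z m) / log m` are less than `1` for large `m`, and (2) for the perturbed primes
with any `z m ≤ C log log m` and with shifts whose lengths `Q m w_m` lie between `m / (log m)^C` and `m`. -/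
theorem result (z : ℕ → ℕ) :
    ((∀ m, z m ≤ 6) → ∀ᶠ n : ℕ in atTop, (n : ℝ) / (64 * Real.log n ^ 2) ≤ E z n) ∧
    ((∀ᶠ m : ℕ in atTop, V (z m) < Real.log m) →
      ∀ (Ω : Type) (m0 : MeasurableSpace Ω) (μ : Measure Ω) (_ : IsProbabilityMeasure μ) (ℱ : Filtration ℕ m0)
        (A : ℕ → Set Ω), Model μ ℱ z A → ∀ᵐ ω ∂μ, Law z {m | ω ∈ A m}) ∧
    (∀ (C : ℕ) (Q : ℕ → ℕ), (∀ᶠ m : ℕ in atTop, (z m : ℝ) ≤ C * Real.log (Real.log m)) →
      (∀ᶠ m : ℕ in atTop, (m : ℝ) / Real.log m ^ C ≤ Q m * primorial (z m) ∧ Q m * primorial (z m) ≤ m) →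
      ∀ (Ω : Type) (_ : MeasurableSpace Ω) (μ : Measure Ω) (_ : IsProbabilityMeasure μ) (J : ℕ → Ω → ℕ),
        IndependentUniform μ Q J → ∀ᵐ ω ∂μ, Law z (Perturbed z (fun m => J m ω))) := by
  have key : (∀ᶠ m : ℕ in atTop, V (z m) < Real.log m) →
      ∀ (Ω : Type) (m0 : MeasurableSpace Ω) (μ : Measure Ω) (_ : IsProbabilityMeasure μ) (ℱ : Filtration ℕ m0)
        (A : ℕ → Set Ω), Model μ ℱ z A → ∀ᵐ ω ∂μ, Law z {m | ω ∈ A m} := by
    intro hV Ω m0 μ hμ ℱ A hA
    have hV' : ∀ᶠ m : ℕ in atTop, Pool.Agent.N233.GM.W (z m) / Real.log m < 1 := by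
      filter_upwards [hV, Pool.Agent.Run7.h414.PM.Kn.logt'.eventually_ge_atTop 1] with m h1 h2
      rw [div_lt_one (by linarith)]
      exact h1
    have h := Pool.Agent.Run7.h414.PM.Kn.model (μ := μ) (ℱ := ℱ) (A := A) z hV' hA.adapted hA.sieved hA.density
    filter_upwards [h] with ω hω
    apply law_of
    intro η hη
    obtain ⟨K, hK0, hK⟩ := hω η hη
    refine ⟨K, hK0, ?_⟩
    filter_upwards [hK] with n hn
    rw [R_eq]
    exact hn
  refine ⟨fun hz => Pool.Agent.Run7.h414.PM.Kn.EE_low z hz, key, ?_⟩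
  intro C Q hz hQ Ω m0 μ hμ J hJ
  obtain ⟨ℱ, g1, g2, g3⟩ := Pool.Agent.Run7.h414.PM.pert z Q C hz hQ J ⟨hJ.measurable, hJ.independent, hJ.uniform⟩
  refine key ?_ Ω m0 μ hμ ℱ (Pool.Agent.Run7.h414.PM.PA z J) ⟨g1, g2, g3⟩
  obtain ⟨δ, hδ, h⟩ := Pool.Agent.N233.GM.W_small
  have hpow : ∀ᶠ n : ℕ in atTop, (z n : ℝ) ≤ (n : ℝ) ^ δ := by
    have h0 := (isLittleO_log_rpow_atTop hδ).def (c := 1 / ((C : ℝ) + 1)) (by positivity)
    filter_upwards [hz, tendsto_natCast_atTop_atTop.eventually h0, Pool.Agent.Run7.h414.PM.Kn.logt'.eventually_ge_atTop 1,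
      eventually_ge_atTop 1] with n h1 h2 h3 h4
    have hn : (0 : ℝ) < (n : ℝ) ^ δ := Real.rpow_pos_of_pos (by exact_mod_cast h4) _
    have hC : (0 : ℝ) ≤ C := Nat.cast_nonneg C
    rw [Real.norm_of_nonneg (by linarith), Real.norm_of_nonneg hn.le] at h2
    have h5 : Real.log (Real.log n) ≤ Real.log n := (Real.log_le_sub_one_of_pos (by linarith)).trans (by linarith)
    have h6 : (C : ℝ) * Real.log (Real.log n) ≤ (C + 1) * Real.log n := by nlinarith
    have h7 : ((C : ℝ) + 1) * Real.log n ≤ (C + 1) * (1 / (C + 1) * (n : ℝ) ^ δ) := mul_le_mul_of_nonneg_left h2 (by linarith)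
    have h8 : ((C : ℝ) + 1) * (1 / (C + 1) * (n : ℝ) ^ δ) = (n : ℝ) ^ δ := by field_simp
    linarith
  filter_upwards [h z hpow, Pool.Agent.Run7.h414.PM.Kn.logt'.eventually_ge_atTop 1] with m h1 h2
  rw [div_lt_one (by linarith)] at h1
  exact h1

end Pool.Agent.Results.MP_c971ef_nt.ModelsAndPerturbedPrimes
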