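import Pool.Agent.Run7.h90.AU.QuadK

set_option autoImplicit false

/-!
# The numbers `2 k + 1`, `n k + 1`, `(n k + 1) ^ 2 - 2` at the members `k` of thin families of residues

Let `p` be a large prime and let `(v_i)`, `i ∈ s`, be a family of residues modulo `p` whose exponential sums
`∑ e(ξ v_i / p)`, `ξ ≠ 0`, are at most `p ^ (-ε) |s|`; the family may be very thin. Examples: the values of a sparse
polynomial of arbitrary degree on a subgroup of order `p ^ η`, the values `c_1 g_1 ^ n + ... + c_k g_k ^ n`, `n < N`,
`N ≥ p ^ η`. The theorem is about the integers `k` congruent to a member of the family modulo `p` in an interval of length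
`L ≥ p ^ (1 - δ)`: uniformly in all `n ≥ 1`, the numbers `2 k + 1`, `n k + 1`, `(n k + 1) ^ 2 - 2` are simultaneously free of
small prime factors with the expected frequency, which is at least `c / (log z) ^ 3`; they are simultaneously almost primes
for at least half of the expected number of the `k` and primes for at most twice this number.

Proof: bound of Bourgain, Glibichuk and Konyagin in the form for recurrences and monomials (`Agent/Run7/h823/BK9`);
equidistribution in the residue classes modulo all integers up to `p ^ δ` and the fundamental lemma of the sieve
(`Agent/Run7/h90/AU`); convergence of the products of Legendre symbols (`Agent/Y781/JR`).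
-/

namespace Pool.Agent.Results.MP_c971ef_nt.MultipliersInSparseFamilies

open Finset Filter Topology
open Pool.Agent.Run7.h90.AU (MultipleLaw multipleDensity SparseSmall RecurrencesSmall)

theorem result : MultipleLaw ∧
    (∃ c : ℝ, 0 < c ∧ ∀ n z : ℕ, 2 ≤ z → c / Real.log z ^ 3 ≤ multipleDensity n z) ∧
    SparseSmall ∧ RecurrencesSmall :=
  ⟨Pool.Agent.Run7.h90.AU.multiple_law, Pool.Agent.Run7.h90.AU.multipleDensity_low,
    Pool.Agent.Run7.h90.AU.sparse_small, Pool.Agent.Run7.h90.AU.rec_small⟩

end Pool.Agent.Results.MP_c971ef_nt.MultipliersInSparseFamilies
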